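import Pool.Agent.H83.CM.Blk3
import Pool.Graph.R_seed8.H334R2.CM.ASMG
import Pool.Graph.R_seed8.H30R2.CM.CAR
import Pool.Graph.R_seed8.H666R2.CM.COMB
import Pool.Graph.R_seed8.H85R2.CM.ORB
import Pool.Graph.R_seed8.H674R2.CM.CLIF
import Pool.Graph.R_seed8.H368R2.CM.CLIF2
import Pool.Graph.R_seed8.H491R2.CM.KPART

/-!
# The Cartan matrix of `11^{3+3} : PSL(2,7)` in characteristic 2
-/

set_option autoImplicit false
set_option linter.unusedSectionVars false
open scoped Matrix MatrixGroups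
universe u

namespace Pool.Agent.H83.Asmh

open _root_.CM

section
variable {k : Type u} [Field k] {A : Type u} [Ring A] [Algebra k A] [FiniteDimensional k A]

lemma cor_zero_of {F F' e e' : A} (he : e ∈ cor k F F) (he' : e' ∈ cor k F' F')
    (h : Module.finrank k (cor k F F') = 0) : Module.finrank k (cor k e e') = 0 := by
  have hle : cor k e e' ≤ cor k F F' := by
    intro x hx
    obtain ⟨h1, h2⟩ := hx
    obtain ⟨h3, h4⟩ := he
    obtain ⟨h5, h6⟩ := he'
    refine ⟨?_, ?_⟩
    · rw [← h1, ← mul_assoc, h3]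
    · rw [← h2, mul_assoc, h6]
  have := Submodule.finrank_mono hle
  omega

end

/-- the index type of the small simple modules of the second group -/
abbrev Be (α : Type) := Fin 1 ⊕ (α × Fin 3) ⊕ α

section
variable {k : Type u} [Field k] [IsAlgClosed k] [CharP k 2] {N K : Type} [Group N] [Group K]
  [Finite N] [Finite K]
  {φ : K →* MulAut N} {L : Type} [Fintype L] [DecidableEq L] {a : K →* Equiv.Perm L}
  {z f : L → MonoidAlgebra k N} {α : Type} [DecidableEq α]

/-- labels -/
def lab (l0 : L) {Y : Set L} (D : OD a Y α) : Fin 3 ⊕ α ⊕ Be α → L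
  | .inl _ => l0
  | .inr (.inl i) => D.r4 i
  | .inr (.inr (.inl _)) => l0
  | .inr (.inr (.inr (.inl (i, _)))) => D.r3 i
  | .inr (.inr (.inr (.inr i))) => D.r1 i

theorem ASMH (h : Blocks φ a z f) (l0 : L) (h0 : f l0 = z l0)
    (h1 : ∀ x : N, MonoidAlgebra.single x 1 * f l0 = f l0) (hl : ∀ g, a g l0 = l0)
    (D : OD a {x | x ≠ l0} α)
    (hG : IdemCartan k (MonoidAlgebra k K) (Cm (Fin 0) (Fin 1))) :
    IdemCartan k (MonoidAlgebra k (N ⋊[φ] K)) (Cm α (Be α)) := by
  have hfinH : Finite (N ⋊[φ] K) := Finite.of_equiv _ SemidirectProduct.equivProd.symm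
  have hfd : FiniteDimensional k (MonoidAlgebra k (N ⋊[φ] K)) := inferInstance
  obtain ⟨e, he1, he2, he3⟩ := hG
  obtain ⟨kp1, kp2, kp3, kp4⟩ := KPART h l0 h0 h1 hl
  have hidem : ∀ l, inN φ (f l) * inN φ (f l) = inN φ (f l) := fun l => by
    rw [← CLIF.inN_mul, h.hf]
  have hself : ∀ l, inN φ (f l) ∈ cor k (inN φ (f l)) (inN φ (f l)) := fun l =>
    ⟨hidem l, hidem l⟩
  choose u4 hu4 hs4 using D.s4
  choose u3 hu3 hs3 using D.s3
  have h3 : ∀ i, ∃ e : Fin 3 → MonoidAlgebra k (N ⋊[φ] K), (∀ i, IsLoc k (e i)) ∧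
      (∀ i j, Module.finrank k (cor k (e i) (e j)) = if i = j then 1 else 0) ∧
      (∀ j, e j ∈ cor k (inN φ (f (D.r3 i))) (inN φ (f (D.r3 i)))) ∧
      ∑ j, e j = inN φ (f (D.r3 i)) := fun i => CLIF_three h (D.r3 i) (u3 i) (hu3 i) (hs3 i)
  choose e3 e3loc e3dim e3mem e3sum using h3
  let ε : Fin 3 ⊕ α ⊕ Be α → MonoidAlgebra k (N ⋊[φ] K) := fun i => match i with
    | .inl i => inN φ (f l0) * inK φ (e (.inl i))
    | .inr (.inl i) => inN φ (f (D.r4 i))
    | .inr (.inr (.inl i)) => inN φ (f l0) * inK φ (e (.inr (.inr i)))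
    | .inr (.inr (.inr (.inl (i, s)))) => e3 i s
    | .inr (.inr (.inr (.inr i))) => inN φ (f (D.r1 i))
  have hmem : ∀ i, ε i ∈ cor k (inN φ (f (lab l0 D i))) (inN φ (f (lab l0 D i))) := by
    rintro (i | i | i | ⟨i, s⟩ | i)
    · exact kp3 _
    · exact hself _
    · exact kp3 _
    · exact e3mem i s
    · exact hself _
  -- different orbits
  have n4 : ∀ i, D.r4 i ≠ l0 := fun i => D.m4 i
  have n3 : ∀ i, D.r3 i ≠ l0 := fun i => D.m3 i
  have n1 : ∀ i, D.r1 i ≠ l0 := fun i => D.m1 i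
  have hflip : ∀ l l' : L, (∀ g, a g l ≠ l') → ∀ g, a g l' ≠ l := by
    intro l l' hh g hg
    apply hh g⁻¹
    rw [← hg, ← Equiv.Perm.mul_apply, ← map_mul, inv_mul_cancel, map_one]
    rfl
  have hl0 : ∀ l, l ≠ l0 → ∀ g, a g l0 ≠ l := by
    intro l hl' g hg
    rw [hl] at hg
    exact hl' hg.symm
  have hzero : ∀ i j, (∀ g, a g (lab l0 D i) ≠ lab l0 D j) →
      Module.finrank k (cor k (ε i) (ε j)) = 0 := by
    intro i j hij
    exact cor_zero_of (hmem i) (hmem j) (CLIF_orth h _ _ hij)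
  have hzero' : ∀ i j, (∀ g, a g (lab l0 D i) ≠ lab l0 D j) →
      Module.finrank k (cor k (ε j) (ε i)) = 0 := by
    intro i j hij
    exact hzero j i (hflip _ _ hij)
  refine ⟨ε, ?_, ?_, ?_⟩
  · rintro (i | i | i | ⟨i, s⟩ | i)
    · exact kp1 _ (he1 _)
    · exact (CLIF_four h (D.r4 i) (u4 i) (hu4 i) (hs4 i)).1
    · exact kp1 _ (he1 _)
    · exact e3loc i s
    · exact (CLIF_one h (D.r1 i) (fun g hg => D.s1 i g hg)).1
  · have hK : ∀ i j, Module.finrank k (cor k (inN φ (f l0) * inK φ (e j))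
        (inN φ (f l0) * inK φ (e i))) = Cm (Fin 0) (Fin 1) i j := by
      intro i j
      rw [kp2 _ _ (he1 j).2.1 (he1 i).2.1, he2]
    rintro (i | i | i | ⟨i, s⟩ | i) (j | j | j | ⟨j, t⟩ | j)
    · exact hK (.inl i) (.inl j)
    · exact hzero (.inr (.inl j)) (.inl i) (hflip _ _ (hl0 _ (n4 j)))
    · exact hK (.inl i) (.inr (.inr j))
    · exact hzero (.inr (.inr (.inr (.inl (j, t))))) (.inl i) (hflip _ _ (hl0 _ (n3 j)))
    · exact hzero (.inr (.inr (.inr (.inr j)))) (.inl i) (hflip _ _ (hl0 _ (n1 j)))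
    · exact hzero (.inl j) (.inr (.inl i)) (hl0 _ (n4 i))
    · by_cases hij : i = j
      · subst hij
        change _ = if i = i then 4 else 0
        rw [if_pos rfl]
        exact (CLIF_four h (D.r4 i) (u4 i) (hu4 i) (hs4 i)).2
      · change _ = if i = j then 4 else 0
        rw [if_neg hij]
        exact hzero (.inr (.inl j)) (.inr (.inl i)) fun g hg => hij (D.d44 _ _ _ hg).symm
    · exact hzero (.inr (.inr (.inl j))) (.inr (.inl i)) (hl0 _ (n4 i))
    · exact hzero (.inr (.inr (.inr (.inl (j, t))))) (.inr (.inl i))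
        (hflip _ _ fun g hg => D.d43 _ _ _ hg)
    · exact hzero (.inr (.inr (.inr (.inr j)))) (.inr (.inl i))
        (hflip _ _ fun g hg => D.d41 _ _ _ hg)
    · exact hK (.inr (.inr i)) (.inl j)
    · exact hzero (.inr (.inl j)) (.inr (.inr (.inl i))) (hflip _ _ (hl0 _ (n4 j)))
    · have h2 := hK (.inr (.inr i)) (.inr (.inr j))
      have hij : i = j := Subsingleton.elim _ _
      subst hij
      change _ = if (Sum.inl i : Be α) = Sum.inl i then 1 else 0
      rw [if_pos rfl]
      refine h2.trans ?_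
      change (if i = i then 1 else 0) = 1
      rw [if_pos rfl]
    · change _ = if (Sum.inl i : Be α) = Sum.inr (Sum.inl (j, t)) then 1 else 0
      rw [if_neg (by simp)]
      exact hzero (.inr (.inr (.inr (.inl (j, t))))) (.inr (.inr (.inl i)))
        (hflip _ _ (hl0 _ (n3 j)))
    · change _ = if (Sum.inl i : Be α) = Sum.inr (Sum.inr j) then 1 else 0
      rw [if_neg (by simp)]
      exact hzero (.inr (.inr (.inr (.inr j)))) (.inr (.inr (.inl i)))
        (hflip _ _ (hl0 _ (n1 j)))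
    · exact hzero (.inl j) (.inr (.inr (.inr (.inl (i, s))))) (hl0 _ (n3 i))
    · exact hzero (.inr (.inl j)) (.inr (.inr (.inr (.inl (i, s))))) fun g hg => D.d43 _ _ _ hg
    · change _ = if (Sum.inr (Sum.inl (i, s)) : Be α) = Sum.inl j then 1 else 0
      rw [if_neg (by simp)]
      exact hzero (.inr (.inr (.inl j))) (.inr (.inr (.inr (.inl (i, s))))) (hl0 _ (n3 i))
    · by_cases hij : i = j
      · subst hij
        change Module.finrank k (cor k (e3 i t) (e3 i s)) =
          if (Sum.inr (Sum.inl (i, s)) : Be α) = Sum.inr (Sum.inl (i, t)) then 1 else 0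
        rw [e3dim]
        by_cases hst : s = t
        · subst hst
          rw [if_pos rfl, if_pos rfl]
        · rw [if_neg (Ne.symm hst), if_neg (by simpa using hst)]
      · change _ = if (Sum.inr (Sum.inl (i, s)) : Be α) = Sum.inr (Sum.inl (j, t)) then 1 else 0
        rw [if_neg (by simpa using fun h5 => absurd h5 hij)]
        exact hzero (.inr (.inr (.inr (.inl (j, t))))) (.inr (.inr (.inr (.inl (i, s)))))
          fun g hg => hij (D.d33 _ _ _ hg).symm
    · change _ = if (Sum.inr (Sum.inl (i, s)) : Be α) = Sum.inr (Sum.inr j) then 1 else 0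
      rw [if_neg (by simp)]
      exact hzero (.inr (.inr (.inr (.inr j)))) (.inr (.inr (.inr (.inl (i, s)))))
        (hflip _ _ fun g hg => D.d31 _ _ _ hg)
    · exact hzero (.inl j) (.inr (.inr (.inr (.inr i)))) (hl0 _ (n1 i))
    · exact hzero (.inr (.inl j)) (.inr (.inr (.inr (.inr i)))) fun g hg => D.d41 _ _ _ hg
    · change _ = if (Sum.inr (Sum.inr i) : Be α) = Sum.inl j then 1 else 0
      rw [if_neg (by simp)]
      exact hzero (.inr (.inr (.inl j))) (.inr (.inr (.inr (.inr i)))) (hl0 _ (n1 i))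
    · change _ = if (Sum.inr (Sum.inr i) : Be α) = Sum.inr (Sum.inl (j, t)) then 1 else 0
      rw [if_neg (by simp)]
      exact hzero (.inr (.inr (.inr (.inl (j, t))))) (.inr (.inr (.inr (.inr i))))
        fun g hg => D.d31 _ _ _ hg
    · change _ = if (Sum.inr (Sum.inr i) : Be α) = Sum.inr (Sum.inr j) then 1 else 0
      by_cases hij : i = j
      · subst hij
        rw [if_pos rfl]
        exact (CLIF_one h (D.r1 i) (fun g hg => D.s1 i g hg)).2
      · rw [if_neg (by simpa using hij)]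
        exact hzero (.inr (.inr (.inr (.inr j)))) (.inr (.inr (.inr (.inr i))))
          fun g hg => hij (D.d11 _ _ _ hg).symm
  · intro M _ _ hM
    obtain ⟨l, hlR, m, hm⟩ := CLIF_full h M hM
      {l | l = l0 ∨ (∃ i, l = D.r4 i) ∨ (∃ i, l = D.r3 i) ∨ ∃ i, l = D.r1 i} (by
        intro l
        by_cases hll : l = l0
        · exact ⟨1, Or.inl (by rw [hll, hl])⟩
        · obtain ⟨g, i, hgi⟩ := D.cover l hll
          have hinv : ∀ l', a g l' = l → a g⁻¹ l = l' := by
            intro l' h5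
            rw [← h5, ← Equiv.Perm.mul_apply, ← map_mul, inv_mul_cancel, map_one]
            rfl
          refine ⟨g⁻¹, Or.inr ?_⟩
          rcases hgi with h5 | h5 | h5
          · exact Or.inl ⟨i, hinv _ h5⟩
          · exact Or.inr (Or.inl ⟨i, hinv _ h5⟩)
          · exact Or.inr (Or.inr ⟨i, hinv _ h5⟩))
    rcases hlR with h5 | ⟨i, h5⟩ | ⟨i, h5⟩ | ⟨i, h5⟩
    · rw [h5] at hm
      obtain ⟨i, m', hm'⟩ := kp4 _ e he3 M hM ⟨m, hm⟩
      rcases i with i | i | i
      · exact ⟨.inl i, m', hm'⟩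
      · exact i.elim0
      · exact ⟨.inr (.inr (.inl i)), m', hm'⟩
    · rw [h5] at hm
      exact ⟨.inr (.inl i), m, hm⟩
    · rw [h5, ← e3sum i, Finset.sum_smul] at hm
      obtain ⟨s, _, hs⟩ := Finset.exists_ne_zero_of_sum_ne_zero hm
      exact ⟨.inr (.inr (.inr (.inl (i, s)))), m, hs⟩
    · rw [h5] at hm
      exact ⟨.inr (.inr (.inr (.inr i))), m, hm⟩

end

/-- renaming the small simple modules -/
theorem reindex {k A : Type u} [Field k] [Ring A] [Algebra k A] {α β β' : Type} [DecidableEq α]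
    [DecidableEq β] [DecidableEq β'] (E : β ≃ β') (h : IdemCartan k A (Cm α β)) :
    IdemCartan k A (Cm α β') := by
  obtain ⟨e, h1, h2, h3⟩ := h
  refine ⟨fun i => e (Sum.map id (Sum.map id E.symm) i), fun i => h1 _, ?_, ?_⟩
  · intro i j
    rw [h2]
    rcases i with i | i | i <;> rcases j with j | j | j <;> try rfl
    change (if E.symm i = E.symm j then 1 else 0) = if i = j then 1 else 0
    by_cases h : i = j
    · rw [if_pos h, if_pos (by rw [h])]
    · rw [if_neg h, if_neg (fun h' => h (E.symm.injective h'))]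
  · intro M _ _ hM
    obtain ⟨i, m, hm⟩ := h3 M hM
    refine ⟨Sum.map id (Sum.map id E) i, m, ?_⟩
    have : Sum.map id (Sum.map id E.symm) (Sum.map id (Sum.map id E) i) = i := by
      rcases i with i | i | i
      · rfl
      · rfl
      · change Sum.inr (Sum.inr (E.symm (E i))) = _
        rw [E.symm_apply_apply]
    change e (Sum.map id (Sum.map id E.symm) (Sum.map id (Sum.map id E) i)) • m ≠ 0
    rw [this]
    exact hm

end Pool.Agent.H83.Asmh
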