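import Pool.Agent.H83.CM.Idm

/-!
# The blocks of the group algebra of `11^{3+3}`
-/

set_option autoImplicit false
set_option linter.unusedSectionVars false
open scoped Matrix MatrixGroups
universe u

namespace Pool.Agent.H83.Blk

open Pool.Agent.H83.Idm
open _root_.CM (V3 NN Lab stdAct dualAct stdAct0 actN labAct Blocks stdAct_apply dualAct_apply)

instance : Fact (Nat.Prime 11) := ⟨by norm_num⟩

section
variable {k : Type u} [Field k] [CharP k 2] {N : Type} [Group N] [Finite N]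

lemma cast_odd {n : ℕ} (h : Odd n) : (n : k) = 1 := by
  obtain ⟨m, rfl⟩ := h
  have h2 : ((2 : ℕ) : k) = 0 := CharP.cast_eq_zero k 2
  push_cast at h2 ⊢
  rw [h2, zero_mul, zero_add]

lemma card_one {E : Finset N} {χ : N → k} (h : Ch E χ) (ho : Odd (Nat.card N)) :
    (E.card : k) = 1 := by
  let S : Subgroup N :=
    { carrier := E
      mul_mem' := fun {a b} ha hb => by
        simp only [Finset.mem_coe] at ha hb ⊢
        exact h.mul a ha b hb
      one_mem' := by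
        simp only [Finset.mem_coe]
        exact h.one
      inv_mem' := fun {x} hx => by
        simp only [Finset.mem_coe] at hx ⊢
        exact h.inv x hx }
  have h1 : Nat.card S = E.card := by
    change Nat.card (E : Set N) = E.card
    rw [Nat.card_coe_set_eq, Set.ncard_coe_finset]
  have h2 : Nat.card S ∣ Nat.card N := S.card_subgroup_dvd_card
  rw [h1] at h2
  exact cast_odd (Odd.of_dvd_nat ho h2)

/-- conjugate of `idm` for a normal subset -/
lemma conj_idm' {E : Finset N} (χ : N → k) (g : N) (hn : ∀ g, ∀ x ∈ E, g * x * g⁻¹ ∈ E) :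
    MonoidAlgebra.single g (1 : k) * idm E χ * MonoidAlgebra.single g⁻¹ 1 =
      idm E (fun x => χ (g⁻¹ * x * g)) := by
  rw [conj_idm]
  unfold idm
  refine Finset.sum_nbij' (fun x => g * x * g⁻¹) (fun x => g⁻¹ * x * g) ?_ ?_ ?_ ?_ ?_
  · intro x hx
    exact hn _ _ hx
  · intro x hx
    have := hn g⁻¹ x hx
    rwa [inv_inv] at this
  · intro x _
    group
  · intro x _
    group
  · intro x _
    congr 2
    group

lemma idm_congr {E E' : Finset N} {χ χ' : N → k} (hE : E = E') (hχ : ∀ x ∈ E, χ x⁻¹ = χ' x⁻¹) :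
    idm E χ = idm E' χ' := by
  subst hE
  unfold idm
  exact Finset.sum_congr rfl fun x hx => by rw [hχ x hx]

end

/-! ### vector identities -/

section vec

lemma dot_add (c v w : V3) : c ⬝ᵥ (v + w) = c ⬝ᵥ v + c ⬝ᵥ w := dotProduct_add _ _ _

/-- the key identity -/
lemma key_id (c b a v v' : V3) : (c ⬝ᵥ (b ⨯₃ a)) * (c ⬝ᵥ (v ⨯₃ v')) =
    ((a ⨯₃ c) ⬝ᵥ v) * ((c ⨯₃ b) ⬝ᵥ v') - ((c ⨯₃ b) ⬝ᵥ v) * ((a ⨯₃ c) ⬝ᵥ v') := by
  simp only [dotProduct, cross_apply, Fin.sum_univ_three, Matrix.cons_val_zero,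
    Matrix.cons_val_one, Matrix.cons_val]
  ring

/-- expansion in the basis `c, b, a` -/
lemma expand (c b a v : V3) : (c ⬝ᵥ (b ⨯₃ a)) • v =
    ((b ⨯₃ a) ⬝ᵥ v) • c + ((a ⨯₃ c) ⬝ᵥ v) • b + ((c ⨯₃ b) ⬝ᵥ v) • a := by
  ext i
  fin_cases i <;>
    simp only [dotProduct, cross_apply, Fin.sum_univ_three, Matrix.cons_val_zero,
      Matrix.cons_val_one, Matrix.cons_val, Pi.add_apply, Pi.smul_apply, smul_eq_mul,
      Fin.zero_eta, Fin.mk_one, Fin.reduceFinMk] <;>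
    ring

lemma exists_ba (c : V3) (hc : c ≠ 0) : ∃ b a : V3, c ⬝ᵥ (b ⨯₃ a) = 1 := by
  have h : ∃ i, c i ≠ 0 := by
    by_contra h
    push Not at h
    exact hc (funext h)
  obtain ⟨i, hi⟩ := h
  fin_cases i
  · refine ⟨![0, 1, 0], ![0, 0, (c 0)⁻¹], ?_⟩
    simp only [dotProduct, cross_apply, Fin.sum_univ_three, Matrix.cons_val_zero,
      Matrix.cons_val_one, Matrix.cons_val]
    have : c 0 ≠ 0 := hi
    field_simp
    ring
  · refine ⟨![0, 0, 1], ![(c 1)⁻¹, 0, 0], ?_⟩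
    simp only [dotProduct, cross_apply, Fin.sum_univ_three, Matrix.cons_val_zero,
      Matrix.cons_val_one, Matrix.cons_val]
    have : c 1 ≠ 0 := hi
    field_simp
    ring
  · refine ⟨![1, 0, 0], ![0, (c 2)⁻¹, 0], ?_⟩
    simp only [dotProduct, cross_apply, Fin.sum_univ_three, Matrix.cons_val_zero,
      Matrix.cons_val_one, Matrix.cons_val]
    have : c 2 ≠ 0 := hi
    field_simp
    ring

lemma exists_dot_ne {c : V3} (hc : c ≠ 0) : ∃ w : V3, c ⬝ᵥ w ≠ 0 := by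
  obtain ⟨b, a, h⟩ := exists_ba c hc
  exact ⟨b ⨯₃ a, by rw [h]; exact one_ne_zero⟩

end vec

/-! ### the group -/

lemma conj_formula (g x : NN) : g⁻¹ * x * g = ⟨x.v, x.w + (2 : ZMod 11) • (x.v ⨯₃ g.v)⟩ := by
  ext i
  · simp
  · simp only [NN.mul_w, NN.mul_v, NN.inv_w, NN.inv_v, Pi.add_apply, Pi.smul_apply]
    fin_cases i <;>
    simp [cross_apply] <;> ring

lemma conj_v (g x : NN) : (g * x * g⁻¹).v = x.v := by
  simp

lemma conj_w (g x : NN) : (g * x * g⁻¹).w = x.w + (2 : ZMod 11) • (g.v ⨯₃ x.v) := by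
  ext i
  simp only [NN.mul_w, NN.mul_v, NN.inv_w, NN.inv_v, Pi.add_apply, Pi.smul_apply]
  fin_cases i <;>
    simp [cross_apply] <;> ring

lemma card_NN : Nat.card NN = 11 ^ 6 := by
  rw [Nat.card_congr NN.equivProd, Nat.card_prod, Nat.card_fun, Nat.card_zmod, Nat.card_fin]
  norm_num

lemma odd_NN : Odd (Nat.card NN) := by
  rw [card_NN]
  decide

section chars
variable {k : Type u} [Field k] [IsAlgClosed k] [CharP k 2] (ψ : AddChar (ZMod 11) k)

/-- the linear character with label `p` -/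
noncomputable def chA (p : V3) (x : NN) : k := ψ (p ⬝ᵥ x.v)

/-- the multiple `t` with `v = t c` -/
noncomputable def tc (c v : V3) : ZMod 11 := open Classical in
  if h : ∃ t : ZMod 11, v = t • c then h.choose else 0

lemma tc_smul {c : V3} (hc : c ≠ 0) (t : ZMod 11) : tc c (t • c) = t := by
  have h : ∃ t' : ZMod 11, t • c = t' • c := ⟨t, rfl⟩
  unfold tc
  rw [dif_pos h]
  have h1 := h.choose_spec
  have h2 : (h.choose - t) • c = 0 := by
    rw [sub_smul, ← h1, sub_self]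
  rcases smul_eq_zero.1 h2 with h3 | h3
  · exact sub_eq_zero.1 h3
  · exact absurd h3 hc

/-- the subgroup of the elements with `v ∈ span c` -/
@[irreducible] noncomputable def Zs (c : V3) : Finset NN := open Classical in
  Finset.univ.filter fun x => ∃ t : ZMod 11, x.v = t • c

lemma mem_Zs {c : V3} {x : NN} : x ∈ Zs c ↔ ∃ t : ZMod 11, x.v = t • c := by
  unfold Zs
  rw [Finset.mem_filter, and_iff_right (Finset.mem_univ x)]

/-- the character of `Zs c` with label `d` -/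
noncomputable def chB (c : V3) (d : ZMod 11) (x : NN) : k := ψ (c ⬝ᵥ x.w + d * tc c x.v)

/-- the subgroup of the elements with `r ⬝ v = 0` -/
@[irreducible] def Es (r : V3) : Finset NN := Finset.univ.filter fun x => r ⬝ᵥ x.v = 0

lemma mem_Es {r : V3} {x : NN} : x ∈ Es r ↔ r ⬝ᵥ x.v = 0 := by
  unfold Es
  rw [Finset.mem_filter, and_iff_right (Finset.mem_univ x)]

/-- the extension of `chB c d` to `Es r` -/
noncomputable def chF (c τ : V3) (d : ZMod 11) (x : NN) : k := ψ (c ⬝ᵥ x.w + d * (τ ⬝ᵥ x.v))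

/-- all elements -/
@[irreducible] def Us : Finset NN := Finset.univ.filter fun _ => True

lemma mem_Us (x : NN) : x ∈ Us := by
  unfold Us
  rw [Finset.mem_filter, and_iff_right (Finset.mem_univ x)]
  trivial

lemma psi_ne (y : ZMod 11) : ψ y ≠ 0 := by
  intro h
  have h1 : ψ (y + -y) = ψ y * ψ (-y) := AddChar.map_add_eq_mul _ _ _
  rw [h, zero_mul, add_neg_cancel, AddChar.map_zero_eq_one] at h1
  exact one_ne_zero h1

lemma Ch_A (p : V3) : Ch Us (chA ψ p) where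
  one := mem_Us _
  mul := fun _ _ _ _ => mem_Us _
  inv := fun _ _ => mem_Us _
  c1 := by
    unfold chA
    rw [NN.one_v, dotProduct_zero, AddChar.map_zero_eq_one]
  cm := fun x _ y _ => by
    unfold chA
    rw [NN.mul_v, dotProduct_add, AddChar.map_add_eq_mul]

lemma Ch_B {c : V3} (hc : c ≠ 0) (d : ZMod 11) : Ch (Zs c) (chB ψ c d) where
  one := mem_Zs.2 ⟨0, by rw [NN.one_v, zero_smul]⟩
  mul := fun x hx y hy => by
    obtain ⟨t, ht⟩ := mem_Zs.1 hx
    obtain ⟨t', ht'⟩ := mem_Zs.1 hy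
    exact mem_Zs.2 ⟨t + t', by rw [NN.mul_v, ht, ht', add_smul]⟩
  inv := fun x hx => by
    obtain ⟨t, ht⟩ := mem_Zs.1 hx
    exact mem_Zs.2 ⟨-t, by rw [NN.inv_v, ht, neg_smul]⟩
  c1 := by
    unfold chB
    have h : tc c (1 : NN).v = 0 := by
      have := tc_smul hc 0
      rwa [zero_smul] at this
    rw [NN.one_w, dotProduct_zero, h, mul_zero, add_zero, AddChar.map_zero_eq_one]
  cm := fun x hx y hy => by
    obtain ⟨t, ht⟩ := mem_Zs.1 hx
    obtain ⟨t', ht'⟩ := mem_Zs.1 hy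
    unfold chB
    rw [NN.mul_v, NN.mul_w, ht, ht', ← add_smul, tc_smul hc, tc_smul hc, tc_smul hc,
      ← AddChar.map_add_eq_mul]
    congr 1
    have h : (t • c) ⨯₃ (t' • c) = 0 := by
      rw [map_smul, LinearMap.map_smul₂, cross_self, smul_zero, smul_zero]
    rw [h, add_zero, dotProduct_add]
    ring

variable {c b a : V3} (hD : c ⬝ᵥ (b ⨯₃ a) = 1)
include hD

lemma iso_E {v v' : V3} (h : (c ⨯₃ b) ⬝ᵥ v = 0) (h' : (c ⨯₃ b) ⬝ᵥ v' = 0) :
    c ⬝ᵥ (v ⨯₃ v') = 0 := by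
  have := key_id c b a v v'
  rw [hD, h, h', one_mul] at this
  rw [this]
  ring

lemma Ch_F (d : ZMod 11) : Ch (Es (c ⨯₃ b)) (chF ψ c (b ⨯₃ a) d) where
  one := mem_Es.2 (by rw [NN.one_v, dotProduct_zero])
  mul := fun x hx y hy => by
    have h1 := mem_Es.1 hx
    have h2 := mem_Es.1 hy
    exact mem_Es.2 (by rw [NN.mul_v, dotProduct_add, h1, h2, add_zero])
  inv := fun x hx => by
    have h1 := mem_Es.1 hx
    exact mem_Es.2 (by rw [NN.inv_v, dotProduct_neg, h1, neg_zero])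
  c1 := by
    unfold chF
    rw [NN.one_w, NN.one_v, dotProduct_zero, dotProduct_zero, mul_zero, add_zero,
      AddChar.map_zero_eq_one]
  cm := fun x hx y hy => by
    have h1 := mem_Es.1 hx
    have h2 := mem_Es.1 hy
    unfold chF
    rw [NN.mul_v, NN.mul_w, ← AddChar.map_add_eq_mul]
    congr 1
    rw [dotProduct_add, dotProduct_add, iso_E hD h1 h2, dotProduct_add]
    ring

lemma dots : (c ⨯₃ b) ⬝ᵥ c = 0 ∧ (c ⨯₃ b) ⬝ᵥ b = 0 ∧ (c ⨯₃ b) ⬝ᵥ a = 1 ∧ (a ⨯₃ c) ⬝ᵥ b = 1 ∧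
    (a ⨯₃ c) ⬝ᵥ a = 0 ∧ (a ⨯₃ c) ⬝ᵥ c = 0 ∧ (b ⨯₃ a) ⬝ᵥ c = 1 := by
  simp only [dotProduct, cross_apply, Fin.sum_univ_three, Matrix.cons_val_zero,
    Matrix.cons_val_one, Matrix.cons_val] at hD ⊢
  refine ⟨by ring, by ring, ?_, ?_, by ring, by ring, ?_⟩
  · linear_combination hD
  · linear_combination hD
  · linear_combination hD

lemma Zs_sub : Zs c ⊆ Es (c ⨯₃ b) := by
  intro x hx
  obtain ⟨t, ht⟩ := mem_Zs.1 hx
  rw [mem_Es, ht, dotProduct_smul, (dots hD).1, smul_zero]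

lemma c_ne : c ≠ 0 := by
  rintro rfl
  rw [zero_dotProduct] at hD
  exact zero_ne_one hD

lemma chB_eq_chF (d : ZMod 11) : ∀ x ∈ Zs c, chB ψ c d x = chF ψ c (b ⨯₃ a) d x := by
  intro x hx
  obtain ⟨t, ht⟩ := mem_Zs.1 hx
  unfold chB chF
  rw [ht, tc_smul (c_ne hD), dotProduct_smul, (dots hD).2.2.2.2.2.2, smul_eq_mul, mul_one]

lemma mem_Zs_of {x : NN} (h : (c ⨯₃ b) ⬝ᵥ x.v = 0) (h' : (a ⨯₃ c) ⬝ᵥ x.v = 0) : x ∈ Zs c := by
  rw [mem_Zs]
  refine ⟨(b ⨯₃ a) ⬝ᵥ x.v, ?_⟩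
  have := expand c b a x.v
  rw [hD, h, h', one_smul, zero_smul, zero_smul, add_zero, add_zero] at this
  exact this

lemma F_inertia (hψ : ∀ y, ψ y = 1 → y = 0) (d : ZMod 11) : ∀ g, g ∉ Es (c ⨯₃ b) →
    ∃ x ∈ Es (c ⨯₃ b), g⁻¹ * x * g ∈ Es (c ⨯₃ b) ∧
      chF ψ c (b ⨯₃ a) d (g⁻¹ * x * g) ≠ chF ψ c (b ⨯₃ a) d x := by
  intro g hg
  have hg' : (c ⨯₃ b) ⬝ᵥ g.v ≠ 0 := fun h => hg (mem_Es.2 h)
  refine ⟨⟨b, 0⟩, mem_Es.2 (dots hD).2.1, ?_, ?_⟩
  · rw [conj_formula]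
    exact mem_Es.2 (dots hD).2.1
  · rw [conj_formula]
    unfold chF
    simp only
    rw [zero_add, dotProduct_zero, zero_add, AddChar.map_add_eq_mul]
    intro h
    have hne : ψ (d * ((b ⨯₃ a) ⬝ᵥ b)) ≠ 0 := psi_ne ψ _
    have h1 : ψ (c ⬝ᵥ ((2 : ZMod 11) • (b ⨯₃ g.v))) = 1 := by
      have h2 : (ψ (c ⬝ᵥ ((2 : ZMod 11) • (b ⨯₃ g.v))) - 1) * ψ (d * ((b ⨯₃ a) ⬝ᵥ b)) = 0 := by
        rw [sub_mul, h, one_mul, sub_self]
      rcases mul_eq_zero.1 h2 with h3 | h3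
      · exact sub_eq_zero.1 h3
      · exact absurd h3 hne
    have h2 := hψ _ h1
    rw [dotProduct_smul, smul_eq_mul] at h2
    have h3 : c ⬝ᵥ (b ⨯₃ g.v) = (c ⨯₃ b) ⬝ᵥ g.v := by
      have := key_id c b a b g.v
      rw [hD, (dots hD).2.1, (dots hD).2.2.2.1, one_mul, one_mul, zero_mul, sub_zero] at this
      exact this
    rw [h3] at h2
    rcases mul_eq_zero.1 h2 with h4 | h4
    · exact absurd h4 (by decide)
    · exact hg' h4

end chars

end Pool.Agent.H83.Blk
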