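import Pool.Agent.H83.CM.Blk

/-!
# The blocks of the group algebra of `11^{3+3}`: the family
-/

set_option autoImplicit false
set_option linter.unusedSectionVars false
open scoped Matrix MatrixGroups
universe u

namespace Pool.Agent.H83.Blk

open Pool.Agent.H83.Idm
open _root_.CM (V3 NN Lab stdAct dualAct stdAct0 actN labAct Blocks stdAct_apply dualAct_apply)

/-- chosen vectors -/
noncomputable def bb (c : {c : V3 // c ≠ 0}) : V3 := (exists_ba c.1 c.2).choose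

/-- chosen vectors -/
noncomputable def aa (c : {c : V3 // c ≠ 0}) : V3 := (exists_ba c.1 c.2).choose_spec.choose

lemma hba (c : {c : V3 // c ≠ 0}) : c.1 ⬝ᵥ (bb c ⨯₃ aa c) = 1 :=
  (exists_ba c.1 c.2).choose_spec.choose_spec

section
variable {k : Type u} [Field k]

lemma csum_gen {G : Type} [AddCommGroup G] [Fintype G] (Φ : G → k)
    (hΦ : ∀ x y, Φ (x + y) = Φ x * Φ y) (g : G) (hg : Φ g ≠ 1) : ∑ x, Φ x = 0 := by
  have h1 : ∑ x, Φ x = ∑ x, Φ (x + g) :=
    (Fintype.sum_equiv (Equiv.addRight g) _ _ fun x => rfl).symm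
  have h2 : ∑ x, Φ (x + g) = Φ g * ∑ x, Φ x := by
    rw [Finset.mul_sum]
    exact Finset.sum_congr rfl fun x _ => by rw [hΦ, mul_comm]
  rw [h2] at h1
  have h3 : (Φ g - 1) * ∑ x, Φ x = 0 := by rw [sub_mul, one_mul, ← h1, sub_self]
  rcases mul_eq_zero.1 h3 with h4 | h4
  · exact absurd (sub_eq_zero.1 h4) hg
  · exact h4

end

section chars
variable {k : Type u} [Field k] [IsAlgClosed k] [CharP k 2] (ψ : AddChar (ZMod 11) k)

lemma csum_V (hψ : ∀ y, ψ y = 1 → y = 0) (v : V3) :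
    ∑ p : V3, ψ (p ⬝ᵥ v) = if v = 0 then 1 else 0 := by
  split_ifs with h
  · subst h
    simp only [dotProduct_zero, AddChar.map_zero_eq_one]
    rw [Finset.sum_const, nsmul_eq_mul, mul_one]
    apply cast_odd
    rw [Finset.card_univ, Fintype.card_fun, ZMod.card, Fintype.card_fin]
    decide
  · obtain ⟨w, hw⟩ := exists_dot_ne h
    refine csum_gen (fun p : V3 => ψ (p ⬝ᵥ v)) ?_ w ?_
    · intro x y
      rw [add_dotProduct, AddChar.map_add_eq_mul]
    · intro h1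
      exact hw (by rw [dotProduct_comm]; exact hψ _ h1)

lemma csum_Z (hψ : ∀ y, ψ y = 1 → y = 0) (t : ZMod 11) :
    ∑ d : ZMod 11, ψ (d * t) = if t = 0 then 1 else 0 := by
  split_ifs with h
  · subst h
    simp only [mul_zero, AddChar.map_zero_eq_one]
    rw [Finset.sum_const, nsmul_eq_mul, mul_one]
    apply cast_odd
    rw [Finset.card_univ, ZMod.card]
    decide
  · refine csum_gen (fun d : ZMod 11 => ψ (d * t)) ?_ 1 ?_
    · intro x y
      rw [add_mul, AddChar.map_add_eq_mul]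
    · intro h1
      simp only [one_mul] at h1
      exact h (hψ _ h1)

lemma psi_inj (hψ : ∀ y, ψ y = 1 → y = 0) {x y : ZMod 11} (h : ψ x = ψ y) : x = y := by
  have h1 : ψ (x - y) * ψ y = ψ x := by
    rw [← AddChar.map_add_eq_mul, sub_add_cancel]
  rw [h] at h1
  have h2 : ψ (x - y) = 1 := by
    have h3 : (ψ (x - y) - 1) * ψ y = 0 := by rw [sub_mul, h1, one_mul, sub_self]
    rcases mul_eq_zero.1 h3 with h4 | h4
    · exact sub_eq_zero.1 h4
    · exact absurd h4 (psi_ne ψ _)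
  exact sub_eq_zero.1 (hψ _ h2)

/-- central idempotents -/
noncomputable def zz : Lab → MonoidAlgebra k NN
  | Sum.inl p => idm Us (chA ψ p)
  | Sum.inr (c, d) => idm (Zs c.1) (chB ψ c.1 d)

/-- primitive idempotents -/
noncomputable def ff : Lab → MonoidAlgebra k NN
  | Sum.inl p => idm Us (chA ψ p)
  | Sum.inr (c, d) => idm (Es (c.1 ⨯₃ bb c)) (chF ψ c.1 (bb c ⨯₃ aa c) d)

lemma sum_Us {M : Type*} [AddCommMonoid M] (F : NN → M) :
    ∑ x ∈ Us, F x = ∑ q : V3 × V3, F ⟨q.1, q.2⟩ := by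
  refine Finset.sum_nbij' (fun x => (x.v, x.w)) (fun q => ⟨q.1, q.2⟩) ?_ ?_ ?_ ?_ ?_
  · intro x _
    simp only [Finset.mem_univ]
  · intro x _
    exact mem_Us _
  · intro x _
    rfl
  · intro x _
    rfl
  · intro x _
    rfl

lemma sum_Zs {M : Type*} [AddCommMonoid M] (F : NN → M) {c : V3} (hc : c ≠ 0) :
    ∑ x ∈ Zs c, F x = ∑ q : ZMod 11 × V3, F ⟨q.1 • c, q.2⟩ := by
  refine Finset.sum_nbij' (fun x => (tc c x.v, x.w)) (fun q => ⟨q.1 • c, q.2⟩) ?_ ?_ ?_ ?_ ?_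
  · intro x _
    exact Finset.mem_univ _
  · intro x _
    exact mem_Zs.2 ⟨_, rfl⟩
  · intro x hx
    obtain ⟨t, ht⟩ := mem_Zs.1 hx
    ext1
    · simp only [ht]
      rw [tc_smul hc]
    · rfl
  · rintro ⟨t, w⟩ _
    simp only [tc_smul hc]
  · intro x hx
    obtain ⟨t, ht⟩ := mem_Zs.1 hx
    congr 1
    ext1
    · simp only [ht]
      rw [tc_smul hc]
    · rfl

lemma single_sum {ι : Type*} (s : Finset ι) (x : NN) (F : ι → k) :
    ∑ i ∈ s, MonoidAlgebra.single x (F i) = MonoidAlgebra.single x (∑ i ∈ s, F i) := by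
  classical
  induction s using Finset.induction_on with
  | empty => rw [Finset.sum_empty, Finset.sum_empty, MonoidAlgebra.single_zero]
  | insert i s hi ih => rw [Finset.sum_insert hi, Finset.sum_insert hi, ih,
      MonoidAlgebra.single_add]

lemma sum_A (hψ : ∀ y, ψ y = 1 → y = 0) : ∑ p : V3, idm Us (chA ψ p) =
    ∑ w : V3, MonoidAlgebra.single (⟨0, w⟩ : NN) (1 : k) := by
  unfold idm
  rw [Finset.sum_comm]
  have h1 : ∀ x : NN, ∑ p : V3, MonoidAlgebra.single x (chA ψ p x⁻¹) =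
      MonoidAlgebra.single x (if x.v = 0 then (1 : k) else 0) := by
    intro x
    rw [single_sum]
    congr 1
    have h2 := csum_V ψ hψ (-x.v)
    have h3 : (if -x.v = 0 then (1 : k) else 0) = if x.v = 0 then 1 else 0 := by
      by_cases h : x.v = 0
      · rw [if_pos h, if_pos (by rw [h, neg_zero])]
      · rw [if_neg h, if_neg (neg_ne_zero.2 h)]
    rw [← h3, ← h2]
    rfl
  rw [Finset.sum_congr rfl fun x _ => h1 x, sum_Us, Fintype.sum_prod_type, Finset.sum_eq_single 0]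
  · simp only [if_true]
  · intro v _ hv
    simp only [if_neg hv, MonoidAlgebra.single_zero]
    exact Finset.sum_const_zero
  · intro h
    exact absurd (Finset.mem_univ _) h

lemma sum_B (hψ : ∀ y, ψ y = 1 → y = 0) {c : V3} (hc : c ≠ 0) :
    ∑ d : ZMod 11, idm (Zs c) (chB ψ c d) =
      ∑ w : V3, MonoidAlgebra.single (⟨0, w⟩ : NN) (ψ (c ⬝ᵥ (-w))) := by
  unfold idm
  rw [Finset.sum_comm]
  have h1 : ∀ x : NN, ∑ d : ZMod 11, MonoidAlgebra.single x (chB ψ c d x⁻¹) =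
      MonoidAlgebra.single x (ψ (c ⬝ᵥ (-x.w)) * if tc c (-x.v) = 0 then (1 : k) else 0) := by
    intro x
    rw [single_sum, ← csum_Z ψ hψ (tc c (-x.v)), Finset.mul_sum]
    congr 1
    refine Finset.sum_congr rfl fun d _ => ?_
    unfold chB
    rw [AddChar.map_add_eq_mul, NN.inv_w, NN.inv_v]
  rw [Finset.sum_congr rfl fun x _ => h1 x, sum_Zs _ hc, Fintype.sum_prod_type,
    Finset.sum_eq_single 0]
  · refine Finset.sum_congr rfl fun w _ => ?_
    have h2 : tc c (-((0 : ZMod 11) • c)) = 0 := by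
      rw [← neg_smul, tc_smul hc, neg_zero]
    rw [if_pos h2, mul_one, zero_smul]
  · intro t _ ht
    have h2 : tc c (-(t • c)) ≠ 0 := by
      rw [← neg_smul, tc_smul hc]
      exact neg_ne_zero.2 ht
    simp only [if_neg h2, mul_zero, MonoidAlgebra.single_zero]
    exact Finset.sum_const_zero
  · intro h
    exact absurd (Finset.mem_univ _) h

lemma sum_zz (hψ : ∀ y, ψ y = 1 → y = 0) : ∑ l, zz ψ l = 1 := by
  rw [Fintype.sum_sum_type, Fintype.sum_prod_type]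
  have h1 : ∑ p : V3, zz ψ (Sum.inl p) =
      ∑ w : V3, MonoidAlgebra.single (⟨0, w⟩ : NN) (ψ ((0 : V3) ⬝ᵥ (-w))) := by
    have := sum_A ψ hψ
    simp only [zero_dotProduct, AddChar.map_zero_eq_one]
    exact this
  have h2 : ∀ c : {c : V3 // c ≠ 0}, ∑ d : ZMod 11, zz ψ (Sum.inr (c, d)) =
      ∑ w : V3, MonoidAlgebra.single (⟨0, w⟩ : NN) (ψ (c.1 ⬝ᵥ (-w))) := fun c =>
    sum_B ψ hψ c.2
  rw [h1, Finset.sum_congr rfl fun c _ => h2 c]
  have h3 : ∀ G : V3 → MonoidAlgebra k NN, G 0 + ∑ c : {c : V3 // c ≠ 0}, G c.1 = ∑ c : V3, G c := by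
    intro G
    rw [← Finset.add_sum_erase Finset.univ G (Finset.mem_univ 0)]
    refine congrArg (fun t => G 0 + t) ?_
    refine Finset.sum_nbij' (fun c => c.1) (fun c => if h : c ≠ 0 then ⟨c, h⟩ else
      ⟨1, one_ne_zero⟩) ?_ ?_ ?_ ?_ ?_
    · intro c _
      exact Finset.mem_erase.2 ⟨c.2, Finset.mem_univ _⟩
    · intro c _
      simp only [Finset.mem_univ]
    · intro c _
      rw [dif_pos c.2]
    · intro c hc
      rw [dif_pos (Finset.mem_erase.1 hc).1]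
    · intro c _
      rfl
  rw [h3 fun c => ∑ w : V3, MonoidAlgebra.single (⟨0, w⟩ : NN) (ψ (c ⬝ᵥ (-w))), Finset.sum_comm]
  rw [Finset.sum_congr rfl fun w _ => single_sum Finset.univ _ _]
  rw [Finset.sum_congr rfl fun w _ => by rw [csum_V ψ hψ (-w)], Finset.sum_eq_single 0]
  · rw [neg_zero, if_pos rfl, MonoidAlgebra.one_def]
    rfl
  · intro w _ hw
    rw [if_neg (neg_ne_zero.2 hw), MonoidAlgebra.single_zero]
  · intro h
    exact absurd (Finset.mem_univ _) h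

lemma orth_of {E E' : Finset NN} {χ χ' : NN → k} (h : Ch E χ) (h' : Ch E' χ') {g : NN}
    (hg : g ∈ E) (hg' : g ∈ E') (hne : χ g ≠ χ' g) : idm E χ * idm E' χ' = 0 :=
  idm_orth h h' hg hg' hne

lemma self_mul {E : Finset NN} {χ : NN → k} (h : Ch E χ) : idm E χ * idm E χ = idm E χ :=
  idm_mul_idm h h (card_one h odd_NN) (Finset.Subset.refl _) (fun _ _ => rfl)

lemma hz (hψ : ∀ y, ψ y = 1 → y = 0) (l l' : Lab) :
    zz ψ l * zz ψ l' = if l = l' then zz ψ l else 0 := by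
  have hsub : ∀ p p' : V3, p ≠ p' → ∃ v : V3, p ⬝ᵥ v ≠ p' ⬝ᵥ v := by
    intro p p' h
    obtain ⟨v, hv⟩ := exists_dot_ne (sub_ne_zero.2 h)
    refine ⟨v, fun h1 => hv ?_⟩
    rw [sub_dotProduct, h1, sub_self]
  rcases l with p | ⟨c, d⟩ <;> rcases l' with p' | ⟨c', d'⟩
  · by_cases h : p = p'
    · subst h
      rw [if_pos rfl]
      exact self_mul (Ch_A ψ p)
    · rw [if_neg (fun h1 => h (Sum.inl_injective h1))]
      obtain ⟨v, hv⟩ := hsub p p' h
      exact orth_of (Ch_A ψ p) (Ch_A ψ p') (g := ⟨v, 0⟩) (mem_Us _) (mem_Us _)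
        fun h1 => hv (psi_inj ψ hψ h1)
  · rw [if_neg (by simp)]
    obtain ⟨w, hw⟩ := exists_dot_ne c'.2
    refine orth_of (Ch_A ψ p) (Ch_B ψ c'.2 d') (g := ⟨0, w⟩) (mem_Us _)
      (mem_Zs.2 ⟨0, by rw [zero_smul]⟩) fun h1 => hw ?_
    have h2 := psi_inj ψ hψ h1
    have h3 : tc c'.1 (0 : V3) = 0 := by
      have := tc_smul c'.2 0
      rwa [zero_smul] at this
    simp only [dotProduct_zero, h3, mul_zero, add_zero] at h2
    exact h2.symm
  · rw [if_neg (by simp)]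
    obtain ⟨w, hw⟩ := exists_dot_ne c.2
    refine orth_of (Ch_B ψ c.2 d) (Ch_A ψ p') (g := ⟨0, w⟩)
      (mem_Zs.2 ⟨0, by rw [zero_smul]⟩) (mem_Us _) fun h1 => hw ?_
    have h2 := psi_inj ψ hψ h1
    have h3 : tc c.1 (0 : V3) = 0 := by
      have := tc_smul c.2 0
      rwa [zero_smul] at this
    simp only [dotProduct_zero, h3, mul_zero, add_zero] at h2
    exact h2
  · by_cases hc : c = c'
    · subst hc
      by_cases h : d = d'
      · subst h
        rw [if_pos rfl]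
        exact self_mul (Ch_B ψ c.2 d)
      · rw [if_neg (fun h1 => h (by simpa using h1))]
        refine orth_of (Ch_B ψ c.2 d) (Ch_B ψ c.2 d') (g := ⟨c.1, 0⟩)
          (mem_Zs.2 ⟨1, by rw [one_smul]⟩) (mem_Zs.2 ⟨1, by rw [one_smul]⟩) fun h1 => h ?_
        have h2 := psi_inj ψ hψ h1
        have h3 : tc c.1 c.1 = 1 := by
          have := tc_smul c.2 1
          rwa [one_smul] at this
        simp only [dotProduct_zero, h3, mul_one, zero_add] at h2
        exact h2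
    · rw [if_neg (fun h1 => hc (by
        have := Sum.inr_injective h1
        exact (Prod.mk.inj this).1))]
      obtain ⟨w, hw⟩ := hsub c.1 c'.1 (fun h => hc (Subtype.ext h))
      refine orth_of (Ch_B ψ c.2 d) (Ch_B ψ c'.2 d') (g := ⟨0, w⟩)
        (mem_Zs.2 ⟨0, by rw [zero_smul]⟩) (mem_Zs.2 ⟨0, by rw [zero_smul]⟩) fun h1 => hw ?_
      have h2 := psi_inj ψ hψ h1
      have h3 : tc c.1 (0 : V3) = 0 := by
        have := tc_smul c.2 0
        rwa [zero_smul] at this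
      have h4 : tc c'.1 (0 : V3) = 0 := by
        have := tc_smul c'.2 0
        rwa [zero_smul] at this
      simp only [h3, h4, mul_zero, add_zero] at h2
      exact h2

lemma hzc (l : Lab) (x : MonoidAlgebra k NN) : zz ψ l * x = x * zz ψ l := by
  rcases l with p | ⟨c, d⟩
  · refine idm_central (fun _ _ _ => mem_Us _) (fun g x _ => ?_) (fun _ _ => mem_Us _) x
    unfold chA
    rw [conj_v]
  · refine idm_central (fun g x hx => ?_) (fun g x hx => ?_) (Ch_B ψ c.2 d).inv x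
    · rw [mem_Zs, conj_v]
      exact mem_Zs.1 hx
    · obtain ⟨t, ht⟩ := mem_Zs.1 hx
      unfold chB
      rw [conj_v, conj_w, dotProduct_add]
      congr 2
      have : c.1 ⬝ᵥ ((2 : ZMod 11) • (g.v ⨯₃ x.v)) = 0 := by
        rw [ht, dotProduct_smul]
        simp only [dotProduct, cross_apply, Fin.sum_univ_three, Matrix.cons_val_zero,
          Matrix.cons_val_one, Matrix.cons_val, Pi.smul_apply, smul_eq_mul]
        ring
      rw [this, add_zero]

lemma hzf (l : Lab) : zz ψ l * ff ψ l = ff ψ l := by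
  rcases l with p | ⟨c, d⟩
  · exact self_mul (Ch_A ψ p)
  · exact idm_mul_idm (Ch_B ψ c.2 d) (Ch_F ψ (hba c) d) (card_one (Ch_B ψ c.2 d) odd_NN)
      (Zs_sub (hba c)) (chB_eq_chF ψ (hba c) d)

lemma hf (l : Lab) : ff ψ l * ff ψ l = ff ψ l := by
  rcases l with p | ⟨c, d⟩
  · exact self_mul (Ch_A ψ p)
  · exact self_mul (Ch_F ψ (hba c) d)

lemma hf0 (l : Lab) : ff ψ l ≠ 0 := by
  rcases l with p | ⟨c, d⟩
  · exact idm_ne_zero (Ch_A ψ p)
  · exact idm_ne_zero (Ch_F ψ (hba c) d)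

lemma hf1 (hψ : ∀ y, ψ y = 1 → y = 0) (l : Lab) (x : MonoidAlgebra k NN) :
    ∃ c : k, ff ψ l * x * ff ψ l = c • ff ψ l := by
  rcases l with p | ⟨c, d⟩
  · exact idm_corner (Ch_A ψ p) (card_one (Ch_A ψ p) odd_NN) (fun g hg => absurd (mem_Us g) hg) x
  · exact idm_corner (Ch_F ψ (hba c) d) (card_one (Ch_F ψ (hba c) d) odd_NN)
      (F_inertia ψ (hba c) hψ d) x

lemma gen_aux (hψ : ∀ y, ψ y = 1 → y = 0) (c : {c : V3 // c ≠ 0}) (d : ZMod 11) :
    ∑ j : ZMod 11, MonoidAlgebra.single (⟨j • aa c, 0⟩ : NN) (1 : k) *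
      idm (Es (c.1 ⨯₃ bb c)) (chF ψ c.1 (bb c ⨯₃ aa c) d) *
      MonoidAlgebra.single (⟨j • aa c, 0⟩ : NN)⁻¹ 1 = idm (Zs c.1) (chB ψ c.1 d) := by
  have hn : ∀ g : NN, ∀ x ∈ Es (c.1 ⨯₃ bb c), g * x * g⁻¹ ∈ Es (c.1 ⨯₃ bb c) := by
    intro g x hx
    rw [mem_Es, conj_v]
    exact mem_Es.1 hx
  rw [Finset.sum_congr rfl fun j _ => conj_idm' (chF ψ c.1 (bb c ⨯₃ aa c) d)
    (⟨j • aa c, 0⟩ : NN) hn]
  unfold idm
  rw [Finset.sum_comm]
  have h1 : ∀ x ∈ Es (c.1 ⨯₃ bb c), ∑ j : ZMod 11, MonoidAlgebra.single x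
      (chF ψ c.1 (bb c ⨯₃ aa c) d ((⟨j • aa c, 0⟩ : NN)⁻¹ * x⁻¹ * ⟨j • aa c, 0⟩)) =
      MonoidAlgebra.single x (chF ψ c.1 (bb c ⨯₃ aa c) d x⁻¹ *
        if (-2 : ZMod 11) * ((aa c ⨯₃ c.1) ⬝ᵥ x.v) = 0 then (1 : k) else 0) := by
    intro x hx
    rw [single_sum, ← csum_Z ψ hψ ((-2 : ZMod 11) * ((aa c ⨯₃ c.1) ⬝ᵥ x.v)), Finset.mul_sum]
    congr 1
    refine Finset.sum_congr rfl fun j _ => ?_
    rw [conj_formula]
    unfold chF
    rw [← AddChar.map_add_eq_mul]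
    congr 1
    simp only [NN.inv_v, NN.inv_w]
    have h2 : c.1 ⬝ᵥ ((2 : ZMod 11) • ((-x.v) ⨯₃ (j • aa c))) =
        (-2) * j * ((aa c ⨯₃ c.1) ⬝ᵥ x.v) := by
      have h3 := key_id c.1 (bb c) (aa c) x.v (aa c)
      rw [hba c, (dots (hba c)).2.2.1, (dots (hba c)).2.2.2.2.1, one_mul, mul_one, mul_zero,
        sub_zero] at h3
      rw [dotProduct_smul, map_smul, map_neg, LinearMap.neg_apply, smul_neg, dotProduct_neg,
        dotProduct_smul, h3, smul_eq_mul, smul_eq_mul]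
      ring
    rw [dotProduct_add, h2]
    ring
  rw [Finset.sum_congr rfl h1]
  symm
  refine Eq.trans ?_ (Finset.sum_subset (Zs_sub (hba c)) ?_)
  · refine Finset.sum_congr rfl fun x hx => ?_
    obtain ⟨t, ht⟩ := mem_Zs.1 hx
    have h2 : (-2 : ZMod 11) * ((aa c ⨯₃ c.1) ⬝ᵥ x.v) = 0 := by
      rw [ht, dotProduct_smul, (dots (hba c)).2.2.2.2.2.1, smul_zero, mul_zero]
    rw [if_pos h2, mul_one, chB_eq_chF ψ (hba c) d _ ((Ch_B ψ c.2 d).inv x hx)]
  · intro x hx hx'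
    have h2 : (-2 : ZMod 11) * ((aa c ⨯₃ c.1) ⬝ᵥ x.v) ≠ 0 := by
      intro h3
      rcases mul_eq_zero.1 h3 with h4 | h4
      · exact absurd h4 (by decide)
      · exact hx' (mem_Zs_of (hba c) (mem_Es.1 hx) h4)
    rw [if_neg h2, mul_zero, MonoidAlgebra.single_zero]

lemma hgen (hψ : ∀ y, ψ y = 1 → y = 0) (l : Lab) :
    ∃ (n : ℕ) (x y : Fin n → MonoidAlgebra k NN), zz ψ l = ∑ i, x i * ff ψ l * y i := by
  rcases l with p | ⟨c, d⟩
  · refine ⟨1, fun _ => 1, fun _ => 1, ?_⟩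
    rw [Fin.sum_univ_one, one_mul, mul_one]
    rfl
  · refine ⟨11, fun j => MonoidAlgebra.single (⟨(ZMod.finEquiv 11 j) • aa c, 0⟩ : NN) (1 : k),
      fun j => MonoidAlgebra.single (⟨(ZMod.finEquiv 11 j) • aa c, 0⟩ : NN)⁻¹ 1, ?_⟩
    have h1 := gen_aux ψ hψ c d
    rw [← Equiv.sum_comp (ZMod.finEquiv 11).toEquiv] at h1
    exact h1.symm

end chars

end Pool.Agent.H83.Blk
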