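import Pool.Agent.H83.CM.Blk2

/-!
# The blocks of the group algebra of `11^{3+3}`: the action of `SL(3,11)`
-/

set_option autoImplicit false
set_option linter.unusedSectionVars false
open scoped Matrix MatrixGroups
universe u

namespace Pool.Agent.H83.Blk

open Pool.Agent.H83.Idm
open _root_.CM (V3 NN Lab stdAct dualAct stdAct0 actN labAct Blocks stdAct_apply dualAct_apply)

section chars
variable {k : Type u} [Field k] [IsAlgClosed k] [CharP k 2] (ψ : AddChar (ZMod 11) k)

lemma symm_v (g : SL(3, ZMod 11)) (y : NN) : ((actN g).symm y).v = stdAct g⁻¹ y.v := rfl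

lemma symm_w (g : SL(3, ZMod 11)) (y : NN) : ((actN g).symm y).w = dualAct g⁻¹ y.w := rfl

lemma mem_map_iff (g : SL(3, ZMod 11)) (E : Finset NN) (x : NN) :
    x ∈ E.map (actN g).toEquiv.toEmbedding ↔ (actN g).symm x ∈ E := by
  constructor
  · intro h
    obtain ⟨y, hy, rfl⟩ := Finset.mem_map.1 h
    have : (actN g).symm ((actN g) y) = y := (actN g).symm_apply_apply y
    change (actN g).symm ((actN g) y) ∈ E
    rw [this]
    exact hy
  · intro h
    exact Finset.mem_map.2 ⟨(actN g).symm x, h, (actN g).apply_symm_apply x⟩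

lemma hphi (g : SL(3, ZMod 11)) (l : Lab) :
    MonoidAlgebra.mapDomain (actN g) (zz ψ l) = zz ψ (labAct g l) := by
  rcases l with p | ⟨c, d⟩
  · change MonoidAlgebra.mapDomain (actN g) (idm Us (chA ψ p)) = idm Us (chA ψ (dualAct g p))
    rw [mapDomain_idm]
    refine idm_congr ?_ ?_
    · ext x
      rw [mem_map_iff]
      exact ⟨fun _ => mem_Us _, fun _ => mem_Us _⟩
    · intro x _
      unfold chA
      simp only [symm_v]
      congr 1
      rw [stdAct_apply, dualAct_apply, Matrix.dotProduct_mulVec, Matrix.mulVec_transpose]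
  · change MonoidAlgebra.mapDomain (actN g) (idm (Zs c.1) (chB ψ c.1 d)) =
      idm (Zs (stdAct0 g c).1) (chB ψ (stdAct0 g c).1 d)
    have hc' : (stdAct0 g c).1 = (g : Matrix (Fin 3) (Fin 3) (ZMod 11)) *ᵥ c.1 := rfl
    have hmem : ∀ x : NN, (actN g).symm x ∈ Zs c.1 ↔
        ∃ t : ZMod 11, x.v = t • (stdAct0 g c).1 := by
      intro x
      rw [mem_Zs, symm_v, stdAct_apply, hc']
      constructor
      · rintro ⟨t, ht⟩
        refine ⟨t, ?_⟩
        rw [← Matrix.mulVec_smul, ← ht]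
        exact (CM.mulVec_inv g x.v).symm
      · rintro ⟨t, ht⟩
        refine ⟨t, ?_⟩
        rw [ht, Matrix.mulVec_smul, CM.inv_mulVec]
    rw [mapDomain_idm]
    refine idm_congr ?_ ?_
    · ext x
      rw [mem_map_iff, hmem, mem_Zs]
    · intro x hx
      rw [mem_map_iff, hmem] at hx
      obtain ⟨t, ht⟩ := hx
      unfold chB
      rw [symm_v, symm_w, NN.inv_v, NN.inv_w, ht, ← neg_smul, tc_smul (stdAct0 g c).2]
      have h1 : stdAct g⁻¹ ((-t) • (stdAct0 g c).1) = (-t) • c.1 := by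
        rw [stdAct_apply, hc', Matrix.mulVec_smul, CM.inv_mulVec]
      rw [h1, tc_smul c.2, hc']
      congr 2
      rw [dualAct_apply, inv_inv, Matrix.dotProduct_mulVec, Matrix.vecMul_transpose]

theorem blocks {K : Type} [Group K] (ρ : K →* SL(3, ZMod 11)) (hψ : ∀ y, ψ y = 1 → y = 0) :
    Blocks (actN.comp ρ) (labAct.comp ρ) (zz ψ) (ff ψ) where
  hz := hz ψ hψ
  hz1 := sum_zz ψ hψ
  hzc := hzc ψ
  hφ := fun g l => hphi ψ (ρ g) l
  hf := hf ψ
  hf0 := hf0 ψ
  hzf := hzf ψ
  hf1 := hf1 ψ hψ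
  hgen := hgen ψ hψ

end chars

/-- there is a nontrivial additive character of the field with 11 elements -/
theorem exists_psi (k : Type u) [Field k] [IsAlgClosed k] [CharP k 2] :
    ∃ ψ : AddChar (ZMod 11) k, ∀ y, ψ y = 1 → y = 0 := by
  have : NeZero ((11 : ℕ) : k) := ⟨by
    rw [cast_odd (k := k) (n := 11) (by decide)]
    exact one_ne_zero⟩
  obtain ⟨ζ, hζ⟩ := HasEnoughRootsOfUnity.exists_primitiveRoot k 11
  refine ⟨AddChar.zmodChar 11 hζ.pow_eq_one, fun y hy => ?_⟩
  rw [AddChar.zmodChar_apply] at hy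
  have h := (hζ.pow_eq_one_iff_dvd _).1 hy
  have h2 := Nat.eq_zero_of_dvd_of_lt h (ZMod.val_lt y)
  exact (ZMod.val_eq_zero y).1 h2

end Pool.Agent.H83.Blk
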