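import Pool.Graph.R_seed8.H334R2.CM.Defs

/-!
# Idempotents of linear characters

`idm E χ` is the idempotent `∑_{x ∈ E} χ(x⁻¹) x` of a linear character `χ` of a subgroup `E`
whose order is `1` in the field.
-/

set_option autoImplicit false
set_option linter.unusedSectionVars false
open scoped Matrix MatrixGroups
universe u

namespace Pool.Agent.H83.Idm

section
variable {k : Type u} [Field k] {N : Type} [Group N]

/-- `E` is (the set of elements of) a subgroup and `χ` a linear character of it -/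
structure Ch (E : Finset N) (χ : N → k) : Prop where
  one : (1 : N) ∈ E
  mul : ∀ x ∈ E, ∀ y ∈ E, x * y ∈ E
  inv : ∀ x ∈ E, x⁻¹ ∈ E
  c1 : χ 1 = 1
  cm : ∀ x ∈ E, ∀ y ∈ E, χ (x * y) = χ x * χ y

/-- `∑_{x ∈ E} χ(x⁻¹) x` -/
noncomputable def idm (E : Finset N) (χ : N → k) : MonoidAlgebra k N :=
  ∑ x ∈ E, MonoidAlgebra.single x (χ x⁻¹)

lemma Ch.inv_mul {E : Finset N} {χ : N → k} (h : Ch E χ) {x : N} (hx : x ∈ E) :
    χ x⁻¹ * χ x = 1 := by
  rw [← h.cm _ (h.inv _ hx) _ hx, inv_mul_cancel, h.c1]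

lemma single_idm {E : Finset N} {χ : N → k} (h : Ch E χ) {g : N} (hg : g ∈ E) :
    MonoidAlgebra.single g (1 : k) * idm E χ = χ g • idm E χ := by
  unfold idm
  rw [Finset.mul_sum, Finset.smul_sum]
  refine Finset.sum_nbij' (fun x => g * x) (fun x => g⁻¹ * x) ?_ ?_ ?_ ?_ ?_
  · intro x hx
    exact h.mul _ hg _ hx
  · intro x hx
    exact h.mul _ (h.inv _ hg) _ hx
  · intro x _
    group
  · intro x _
    group
  · intro x hx
    rw [MonoidAlgebra.single_mul_single, one_mul, MonoidAlgebra.smul_single, mul_inv_rev,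
      h.cm _ (h.inv _ hx) _ (h.inv _ hg), smul_eq_mul]
    congr 1
    have := h.inv_mul hg
    rw [mul_left_comm, mul_comm (χ g), this, mul_one]

lemma idm_single {E : Finset N} {χ : N → k} (h : Ch E χ) {g : N} (hg : g ∈ E) :
    idm E χ * MonoidAlgebra.single g (1 : k) = χ g • idm E χ := by
  unfold idm
  rw [Finset.sum_mul, Finset.smul_sum]
  refine Finset.sum_nbij' (fun x => x * g) (fun x => x * g⁻¹) ?_ ?_ ?_ ?_ ?_
  · intro x hx
    exact h.mul _ hx _ hg
  · intro x hx
    exact h.mul _ hx _ (h.inv _ hg)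
  · intro x _
    group
  · intro x _
    group
  · intro x hx
    rw [MonoidAlgebra.single_mul_single, mul_one, MonoidAlgebra.smul_single, mul_inv_rev,
      h.cm _ (h.inv _ hg) _ (h.inv _ hx), smul_eq_mul]
    congr 1
    have := h.inv_mul hg
    rw [← mul_assoc, mul_comm (χ g), this, one_mul]

lemma single_eq_smul (x : N) (c : k) :
    MonoidAlgebra.single x c = c • MonoidAlgebra.single x (1 : k) := by
  rw [MonoidAlgebra.smul_single, smul_eq_mul, mul_one]

/-- absorption -/
lemma idm_mul_idm {E E' : Finset N} {χ χ' : N → k} (h : Ch E χ) (h' : Ch E' χ')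
    (hc : (E.card : k) = 1) (hE : E ⊆ E') (hχ : ∀ x ∈ E, χ x = χ' x) :
    idm E χ * idm E' χ' = idm E' χ' := by
  have h1 : idm E χ * idm E' χ' = ∑ x ∈ E, idm E' χ' := by
    conv_lhs => unfold idm
    rw [Finset.sum_mul]
    refine Finset.sum_congr rfl fun x hx => ?_
    change MonoidAlgebra.single x (χ x⁻¹) * idm E' χ' = _
    rw [single_eq_smul, smul_mul_assoc, single_idm h' (hE hx), smul_smul, ← hχ x hx, h.inv_mul hx,
      one_smul]
  rw [h1, Finset.sum_const, ← Nat.cast_smul_eq_nsmul k, hc, one_smul]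

lemma idm_mul_idm' {E E' : Finset N} {χ χ' : N → k} (h : Ch E χ) (h' : Ch E' χ')
    (hc : (E.card : k) = 1) (hE : E ⊆ E') (hχ : ∀ x ∈ E, χ x = χ' x) :
    idm E' χ' * idm E χ = idm E' χ' := by
  have h1 : idm E' χ' * idm E χ = ∑ x ∈ E, idm E' χ' := by
    conv_lhs => 
      rw [show idm E χ = ∑ x ∈ E, MonoidAlgebra.single x (χ x⁻¹) from rfl]
    rw [Finset.mul_sum]
    refine Finset.sum_congr rfl fun x hx => ?_
    rw [single_eq_smul, mul_smul_comm, idm_single h' (hE hx), smul_smul, ← hχ x hx, h.inv_mul hx,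
      one_smul]
  rw [h1, Finset.sum_const, ← Nat.cast_smul_eq_nsmul k, hc, one_smul]

/-- orthogonality -/
lemma idm_orth {E E' : Finset N} {χ χ' : N → k} (h : Ch E χ) (h' : Ch E' χ') {g : N}
    (hg : g ∈ E) (hg' : g ∈ E') (hne : χ g ≠ χ' g) : idm E χ * idm E' χ' = 0 := by
  have h1 : χ g • (idm E χ * idm E' χ') = χ' g • (idm E χ * idm E' χ') := by
    rw [← smul_mul_assoc, ← idm_single h hg, mul_assoc, single_idm h' hg', mul_smul_comm]
  have h2 : (χ g - χ' g) • (idm E χ * idm E' χ') = 0 := by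
    rw [sub_smul, h1, sub_self]
  rcases smul_eq_zero.1 h2 with h3 | h3
  · exact absurd (sub_eq_zero.1 h3) hne
  · exact h3

/-- the corner of `idm E χ` is one-dimensional if `χ` has trivial inertia -/
lemma idm_corner {E : Finset N} {χ : N → k} (h : Ch E χ) (hc : (E.card : k) = 1)
    (hin : ∀ g, g ∉ E → ∃ x ∈ E, g⁻¹ * x * g ∈ E ∧ χ (g⁻¹ * x * g) ≠ χ x) (y : MonoidAlgebra k N) :
    ∃ c : k, idm E χ * y * idm E χ = c • idm E χ := by
  have hid : idm E χ * idm E χ = idm E χ :=
    idm_mul_idm h h hc (Finset.Subset.refl _) (fun _ _ => rfl)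
  induction y using MonoidAlgebra.induction_linear with
  | zero => exact ⟨0, by rw [mul_zero, zero_mul, zero_smul]⟩
  | add x y hx hy =>
    obtain ⟨c, hc⟩ := hx
    obtain ⟨d, hd⟩ := hy
    exact ⟨c + d, by rw [mul_add, add_mul, hc, hd, add_smul]⟩
  | single g r =>
    by_cases hg : g ∈ E
    · refine ⟨r * χ g, ?_⟩
      rw [single_eq_smul, mul_smul_comm, idm_single h hg, smul_smul, smul_mul_assoc, hid]
    · refine ⟨0, ?_⟩
      obtain ⟨x, hx, hx', hne⟩ := hin g hg
      have h1 : χ x • (idm E χ * MonoidAlgebra.single g (1 : k) * idm E χ) =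
          χ (g⁻¹ * x * g) • (idm E χ * MonoidAlgebra.single g (1 : k) * idm E χ) := by
        rw [← smul_mul_assoc, ← smul_mul_assoc, ← idm_single h hx, ← mul_smul_comm,
          ← single_idm h hx', mul_assoc (idm E χ) (MonoidAlgebra.single x 1),
          MonoidAlgebra.single_mul_single, mul_assoc (idm E χ) (MonoidAlgebra.single g 1),
          ← mul_assoc (MonoidAlgebra.single g (1 : k)), MonoidAlgebra.single_mul_single,
          mul_assoc (idm E χ)]
        congr 3
        · group
      have h2 : (χ x - χ (g⁻¹ * x * g)) •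
          (idm E χ * MonoidAlgebra.single g (1 : k) * idm E χ) = 0 := by
        rw [sub_smul, h1, sub_self]
      rw [zero_smul, single_eq_smul, mul_smul_comm, smul_mul_assoc]
      rcases smul_eq_zero.1 h2 with h3 | h3
      · exact absurd (sub_eq_zero.1 h3).symm hne
      · rw [h3, smul_zero]

lemma idm_ne_zero {E : Finset N} {χ : N → k} (h : Ch E χ) : idm E χ ≠ 0 := by
  classical
  intro h0
  have h1 : (idm E χ).coeff 1 = 0 := by rw [h0]; rfl
  have h2 : (idm E χ).coeff 1 = 1 := by
    unfold idm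
    rw [MonoidAlgebra.coeff_sum, Finsupp.finset_sum_apply, Finset.sum_eq_single 1]
    · rw [MonoidAlgebra.coeff_single, Finsupp.single_eq_same, inv_one, h.c1]
    · intro b _ hb
      rw [MonoidAlgebra.coeff_single, Finsupp.single_eq_of_ne (Ne.symm hb)]
    · intro h3
      exact absurd h.one h3
  rw [h1] at h2
  exact zero_ne_one h2

/-- image under an isomorphism of groups -/
lemma mapDomain_idm {M : Type} [Group M] (e : N ≃* M) (E : Finset N) (χ : N → k) :
    MonoidAlgebra.mapDomain e (idm E χ) =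
      idm (E.map e.toEquiv.toEmbedding) (fun x => χ (e.symm x)) := by
  classical
  unfold idm
  rw [Finset.sum_map]
  have h1 : ∀ s : Finset N, MonoidAlgebra.mapDomain e (∑ x ∈ s, MonoidAlgebra.single x (χ x⁻¹)) =
      ∑ x ∈ s, MonoidAlgebra.mapDomain e (MonoidAlgebra.single x (χ x⁻¹)) := by
    intro s
    induction s using Finset.induction_on with
    | empty => simp
    | insert i s hi ih => rw [Finset.sum_insert hi, Finset.sum_insert hi,
        MonoidAlgebra.mapDomain_add, ih]
  rw [h1]
  refine Finset.sum_congr rfl fun x _ => ?_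
  rw [MonoidAlgebra.mapDomain_single]
  congr 1
  change χ x⁻¹ = χ (e.symm ((e x)⁻¹))
  rw [← map_inv, e.symm_apply_apply]

/-- conjugation -/
lemma conj_idm (E : Finset N) (χ : N → k) (g : N) :
    MonoidAlgebra.single g (1 : k) * idm E χ * MonoidAlgebra.single g⁻¹ 1 =
      ∑ x ∈ E, MonoidAlgebra.single (g * x * g⁻¹) (χ x⁻¹) := by
  unfold idm
  rw [Finset.mul_sum, Finset.sum_mul]
  refine Finset.sum_congr rfl fun x _ => ?_
  rw [MonoidAlgebra.single_mul_single, MonoidAlgebra.single_mul_single, one_mul, mul_one]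

/-- the idempotent of an invariant character of a normal subgroup is central -/
lemma idm_central {E : Finset N} {χ : N → k} (hn : ∀ g, ∀ x ∈ E, g * x * g⁻¹ ∈ E)
    (hχ : ∀ g, ∀ x ∈ E, χ (g * x * g⁻¹) = χ x) (hinv : ∀ x ∈ E, x⁻¹ ∈ E)
    (y : MonoidAlgebra k N) : idm E χ * y = y * idm E χ := by
  induction y using MonoidAlgebra.induction_linear with
  | zero => rw [mul_zero, zero_mul]
  | add x y hx hy => rw [mul_add, add_mul, hx, hy]
  | single g r =>
    have h1 : MonoidAlgebra.single g (1 : k) * idm E χ * MonoidAlgebra.single g⁻¹ 1 =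
        idm E χ := by
      rw [conj_idm]
      unfold idm
      refine Finset.sum_nbij' (fun x => g * x * g⁻¹) (fun x => g⁻¹ * x * g) ?_ ?_ ?_ ?_ ?_
      · intro x hx
        exact hn _ _ hx
      · intro x hx
        have := hn g⁻¹ x hx
        rwa [inv_inv] at this
      · intro x _
        group
      · intro x _
        group
      · intro x hx
        congr 1
        have := hχ g x⁻¹ (hinv _ hx)
        rw [← this]
        congr 1
        group
    have h2 : MonoidAlgebra.single g (1 : k) * idm E χ = idm E χ * MonoidAlgebra.single g 1 := by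
      have h3 : MonoidAlgebra.single g⁻¹ (1 : k) * MonoidAlgebra.single g 1 = 1 := by
        rw [MonoidAlgebra.single_mul_single, inv_mul_cancel, mul_one, MonoidAlgebra.one_def]
      calc MonoidAlgebra.single g (1 : k) * idm E χ
          = MonoidAlgebra.single g (1 : k) * idm E χ *
              (MonoidAlgebra.single g⁻¹ 1 * MonoidAlgebra.single g 1) := by rw [h3, mul_one]
        _ = (MonoidAlgebra.single g (1 : k) * idm E χ * MonoidAlgebra.single g⁻¹ 1) *
              MonoidAlgebra.single g 1 := by rw [mul_assoc, mul_assoc, mul_assoc]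
        _ = idm E χ * MonoidAlgebra.single g 1 := by rw [h1]
    rw [single_eq_smul, mul_smul_comm, smul_mul_assoc, h2]

end

end Pool.Agent.H83.Idm
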